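import Mathlib
import Pool.Agent.Y489.SP.Stm

/-!
# Project SP (helper489): powers in pro-`p` groups
-/

set_option autoImplicit false

open Set Filter Topology

namespace Pool.Agent.Y340.SP

open Pool.Agent.Y485.HS Pool.Agent.Y489.SP

/-- Powers in pro-`p` groups. -/
theorem t_POW : S_POW := by
  intro p hp P _ _ _ _ _ _ hP g
  rw [tendsto_nhds]
  intro V hV h1
  obtain ⟨H, hH⟩ := ProfiniteGrp.exist_openNormalSubgroup_sub_open_nhds_of_one hV h1
  obtain ⟨j₀, hj₀⟩ := hP H.toSubgroup H.isOpen'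
  have hmem : g ^ p ^ j₀ ∈ H.toSubgroup := by
    rw [← hj₀]
    exact Subgroup.pow_index_mem _ g
  filter_upwards [eventually_ge_atTop j₀] with j hj
  apply hH
  obtain ⟨i, rfl⟩ := Nat.exists_eq_add_of_le hj
  show g ^ p ^ (j₀ + i) ∈ H.toSubgroup
  rw [pow_add, pow_mul]
  exact H.toSubgroup.pow_mem hmem _

end Pool.Agent.Y340.SP
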